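import Pool.Agent.helper10.CH.SpecZ

/-!
# Project CH, row CZN (block Z): a non-trivial character of finite order is not a power of the norm
-/

set_option autoImplicit false

namespace Pool.Agent.UN

open NumberField Complex

/-- the archimedean character of the trivial infinity type is trivial -/
theorem CZN_Ar {K : Type} [Field K] [NumberField K] (x : 𝓞 K) : Ar (fun _ => 0) (fun _ => 0) x = 1 := by
  unfold Ar ph
  refine Finset.prod_eq_one fun w _ => ?_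
  rw [zpow_zero, mul_one, mul_zero, zero_mul, Complex.ofReal_zero, neg_zero, zero_mul, Complex.exp_zero]

/-- `χ((1 + M j)) = 1` -/
theorem CZN_one {K : Type} [Field K] [NumberField K] {f : Ideal (𝓞 K)} {χ : Ideal (𝓞 K) → ℂ}
    (h : HCharG f χ (fun _ => 0) (fun _ => 0)) (j : ℕ) :
    χ (Ideal.span {((1 + Ideal.absNorm f * j : ℕ) : 𝓞 K)}) = 1 := by
  have h1 : ((1 + Ideal.absNorm f * j : ℕ) : 𝓞 K) ≠ 0 := by
    rw [Nat.cast_ne_zero]
    omega
  have h2 : ((1 + Ideal.absNorm f * j : ℕ) : 𝓞 K) - 1 ∈ f := by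
    have h3 : ((1 + Ideal.absNorm f * j : ℕ) : 𝓞 K) - 1 = (j : 𝓞 K) * (Ideal.absNorm f : 𝓞 K) := by
      push_cast
      ring
    rw [h3]
    exact f.mul_mem_left _ (Ideal.absNorm_mem f)
  have h4 := h.per _ 1 h1 one_ne_zero h2 (fun φ => by
    have h5 : φ ((((1 + Ideal.absNorm f * j : ℕ) : 𝓞 K) : 𝓞 K) : K) = ((1 + Ideal.absNorm f * j : ℕ) : ℝ) := by
      show φ (algebraMap (𝓞 K) K ((1 + Ideal.absNorm f * j : ℕ) : 𝓞 K)) = ((1 + Ideal.absNorm f * j : ℕ) : ℝ)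
      rw [map_natCast, map_natCast]
    have h6 : φ (((1 : 𝓞 K) : 𝓞 K) : K) = 1 := by
      show φ (algebraMap (𝓞 K) K 1) = 1
      rw [map_one, map_one]
    rw [h5, h6, mul_one, Nat.cast_pos]
    omega)
  rw [CZN_Ar, CZN_Ar, mul_one, mul_one, Ideal.span_singleton_one, h.one] at h4
  exact h4

/-- the value of the phase is one: the logarithm is a multiple of the period -/
theorem CZN_ph {t u : ℝ} (h : ph t u = 1) : ∃ k : ℤ, t * u = 2 * Real.pi * k := by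
  unfold ph at h
  obtain ⟨k, hk⟩ := Complex.exp_eq_one_iff.1 h
  refine ⟨-k, ?_⟩
  have h1 : (-((t * u : ℝ) : ℂ)) = (k : ℂ) * (2 * Real.pi) := by
    have h2 : (-((t * u : ℝ) : ℂ)) * I = (k : ℂ) * (2 * Real.pi) * I := by
      rw [hk]
      ring
    exact mul_right_cancel₀ Complex.I_ne_zero h2
  have h3 : (((t * u : ℝ)) : ℂ) = ((2 * Real.pi * ((-k : ℤ) : ℝ) : ℝ) : ℂ) := by
    push_cast
    push_cast at h1
    linear_combination (-1 : ℂ) * h1
  exact Complex.ofReal_injective h3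

/-- the arithmetic: two coprime numbers greater than one have no common power -/
theorem CZN_arith (M n : ℕ) (hM : 1 ≤ M) (hn : 1 ≤ n) (t : ℝ) (ht : t ≠ 0) (k₁ k₂ : ℤ)
    (h1 : t * Real.log (((1 + M * 1) ^ n : ℕ) : ℝ) = 2 * Real.pi * k₁)
    (h2 : t * Real.log (((1 + M * 2) ^ n : ℕ) : ℝ) = 2 * Real.pi * k₂) : False := by
  have hpi := Real.pi_pos
  have hn' : (0 : ℝ) < n := by
    rw [Nat.cast_pos]
    omega
  have l1 : 0 < Real.log ((1 + M : ℕ) : ℝ) := Real.log_pos (by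
    rw [Nat.one_lt_cast]
    omega)
  have l2 : 0 < Real.log ((1 + M * 2 : ℕ) : ℝ) := Real.log_pos (by
    rw [Nat.one_lt_cast]
    omega)
  rw [mul_one, Nat.cast_pow, Real.log_pow] at h1
  rw [Nat.cast_pow, Real.log_pow] at h2
  have e1 : (k₂ : ℝ) * Real.log ((1 + M : ℕ) : ℝ) = k₁ * Real.log ((1 + M * 2 : ℕ) : ℝ) := by
    have h3 : (2 * Real.pi * t * n) * ((k₂ : ℝ) * Real.log ((1 + M : ℕ) : ℝ)) = (2 * Real.pi * t * n) * (k₁ * Real.log ((1 + M * 2 : ℕ) : ℝ)) := by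
      linear_combination (2 * Real.pi * k₂) * h1 - (2 * Real.pi * k₁) * h2
    exact mul_left_cancel₀ (mul_ne_zero (mul_ne_zero (mul_ne_zero two_ne_zero hpi.ne') ht) hn'.ne') h3
  have hk2 : k₂ ≠ 0 := by
    intro h
    rw [h, Int.cast_zero, mul_zero] at h2
    exact (mul_ne_zero ht (mul_ne_zero hn'.ne' l2.ne')) h2
  have e2 : ((k₂.natAbs : ℕ) : ℝ) * Real.log ((1 + M : ℕ) : ℝ) = ((k₁.natAbs : ℕ) : ℝ) * Real.log ((1 + M * 2 : ℕ) : ℝ) := by
    have h3 := congrArg abs e1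
    rw [abs_mul, abs_mul, abs_of_pos l1, abs_of_pos l2] at h3
    rw [Nat.cast_natAbs, Nat.cast_natAbs, Int.cast_abs, Int.cast_abs]
    exact h3
  have e3 : (1 + M) ^ k₂.natAbs = (1 + M * 2) ^ k₁.natAbs := by
    have h3 : Real.log (((1 + M) ^ k₂.natAbs : ℕ) : ℝ) = Real.log (((1 + M * 2) ^ k₁.natAbs : ℕ) : ℝ) := by
      rw [Nat.cast_pow, Nat.cast_pow, Real.log_pow, Real.log_pow]
      exact e2
    have p1 : (0 : ℝ) < (((1 + M) ^ k₂.natAbs : ℕ) : ℝ) := by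
      rw [Nat.cast_pos]
      positivity
    have p2 : (0 : ℝ) < (((1 + M * 2) ^ k₁.natAbs : ℕ) : ℝ) := by
      rw [Nat.cast_pos]
      positivity
    exact Nat.cast_injective (Real.log_injOn_pos p1 p2 h3)
  have hco : Nat.Coprime (1 + M) (1 + M * 2) := by
    have h3 : 1 + M * 2 = (1 + M) + M := by ring
    rw [h3, Nat.coprime_self_add_right]
    have h4 : Nat.Coprime (1 + M * 1) M := by
      rw [Nat.coprime_add_mul_left_left]
      exact Nat.coprime_one_left M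
    rw [mul_one] at h4
    exact h4
  have hco2 : Nat.Coprime ((1 + M) ^ k₂.natAbs) ((1 + M * 2) ^ k₁.natAbs) := hco.pow _ _
  rw [← e3, Nat.coprime_self] at hco2
  have h5 : 1 < (1 + M) ^ k₂.natAbs := Nat.one_lt_pow (by
    intro h
    exact hk2 (Int.natAbs_eq_zero.1 h)) (by omega)
  omega

theorem CZN (hPRO : PRO_stmt) : CZN_stmt := by
  intro K _ _ f χ h ⟨a, ha, hχa⟩ ⟨t₀, ht⟩
  have ht0 : t₀ ≠ 0 := by
    intro h0
    apply hχa
    rw [ht a ha, h0]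
    unfold ph
    rw [zero_mul, Complex.ofReal_zero, neg_zero, zero_mul, Complex.exp_zero]
  have hn : 1 ≤ Module.finrank ℤ (𝓞 K) := by
    rw [RingOfIntegers.rank K]
    exact (hPRO K).1
  have hM : 1 ≤ Ideal.absNorm f := Nat.one_le_iff_ne_zero.2 (fun h0 => h.f0 (Ideal.absNorm_eq_zero_iff.1 h0))
  have hj : ∀ j : ℕ, ∃ k : ℤ, t₀ * Real.log (((1 + Ideal.absNorm f * j) ^ (Module.finrank ℤ (𝓞 K)) : ℕ) : ℝ) = 2 * Real.pi * k := by
    intro j
    have h1 : Ideal.span {((1 + Ideal.absNorm f * j : ℕ) : 𝓞 K)} ≠ ⊥ := by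
      rw [Ne, Ideal.span_singleton_eq_bot, Nat.cast_eq_zero]
      omega
    have h2 := ht _ h1
    rw [CZN_one h j] at h2
    obtain ⟨k, hk⟩ := CZN_ph h2.symm
    refine ⟨k, ?_⟩
    rw [← hk]
    unfold Nm
    rw [Ideal.absNorm_span_natCast]
  obtain ⟨k₁, hk₁⟩ := hj 1
  obtain ⟨k₂, hk₂⟩ := hj 2
  exact CZN_arith (Ideal.absNorm f) _ hM hn t₀ ht0 k₁ k₂ hk₁ hk₂

end Pool.Agent.UN
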