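import Pool.Agent.helper82.CH.SpecA

set_option autoImplicit false

open NumberField Complex Pool.Agent.UN

namespace Pool.Agent.CH

theorem EXL_absc (f : ℕ → ℂ) (h : ∀ s : ℂ, 1 < s.re → LSeriesSummable f s) :
    LSeries.abscissaOfAbsConv f ≤ 1 := by
  have h1 : LSeries.abscissaOfAbsConv f ≤ ((1 : ℝ) : EReal) := by
    refine LSeries.abscissaOfAbsConv_le_of_forall_lt_LSeriesSummable' ?_
    intro y hy
    refine h y ?_
    rw [Complex.ofReal_re]
    exact EReal.coe_lt_coe_iff.1 hy
  exact h1

theorem EXL_lt (f : ℕ → ℂ) (h : ∀ s : ℂ, 1 < s.re → LSeriesSummable f s) (s : ℂ) (hs : 1 < s.re) :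
    LSeries.abscissaOfAbsConv f < s.re := by
  refine (EXL_absc f h).trans_lt ?_
  have : ((1 : ℝ) : EReal) < (s.re : EReal) := EReal.coe_lt_coe_iff.2 hs
  exact this

theorem EXL : EXL_stmt := by
  intro c z hc1 hcz hid hl
  have hc := fun s hs => (hcz s hs).1
  have hz := fun s hs => (hcz s hs).2
  have hz1 : z 1 = 0 := by
    have h := hid 1 one_ne_zero
    rw [Nat.divisorsAntidiagonal_one, Finset.sum_singleton, Nat.cast_one, Real.log_one, Complex.ofReal_zero,
      zero_mul] at h
    simp only [hc1, mul_one] at h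
    exact h.symm
  -- the derivative of the first series
  have hdc : ∀ s : ℂ, 1 < s.re → HasDerivAt (LSeries c) (-(LSeries z s * LSeries c s)) s := by
    intro s hs
    have h1 := LSeries_hasDerivAt (EXL_lt c hc s hs)
    have h2 : LSeries (LSeries.logMul c) s = LSeries z s * LSeries c s := by
      rw [← LSeries_convolution' (hz s hs) (hc s hs)]
      refine LSeries_congr (fun {n} hn => ?_) s
      rw [LSeries.convolution_def]
      show Complex.log n * c n = ∑ p ∈ n.divisorsAntidiagonal, z p.1 * c p.2
      rw [← hid n hn, Complex.natCast_log]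
    rw [h2] at h1
    exact h1
  obtain ⟨l, hld⟩ : ∃ l : ℕ → ℂ, l = fun n => z n / (Real.log n : ℂ) := ⟨_, rfl⟩
  rw [← hld] at hl ⊢
  have hl1 : l 1 = 0 := by
    rw [hld]
    show z 1 / _ = 0
    rw [hz1, zero_div]
  have hdl : ∀ s : ℂ, 1 < s.re → HasDerivAt (LSeries l) (-LSeries z s) s := by
    intro s hs
    have h1 := LSeries_hasDerivAt (EXL_lt l hl s hs)
    have h2 : LSeries (LSeries.logMul l) s = LSeries z s := by
      refine LSeries_congr (fun {n} hn => ?_) s
      show Complex.log n * l n = z n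
      rw [hld, ← Complex.natCast_log]
      show (Real.log n : ℂ) * (z n / (Real.log n : ℂ)) = z n
      by_cases h : n = 1
      · rw [h, hz1, zero_div, mul_zero]
      · have h0 : (Real.log n : ℂ) ≠ 0 := by
          rw [Ne, Complex.ofReal_eq_zero]
          have h2 : 1 < n := by omega
          exact (Real.log_pos (by exact_mod_cast h2)).ne'
        field_simp
    rw [h2] at h1
    exact h1
  have hopen : IsOpen {s : ℂ | 1 < s.re} := isOpen_lt continuous_const Complex.continuous_re
  have hconv : Convex ℝ {s : ℂ | 1 < s.re} := convex_halfSpace_re_gt 1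
  obtain ⟨g, hg⟩ : ∃ g : ℂ → ℂ, g = fun s => Complex.exp (-LSeries l s) * LSeries c s := ⟨_, rfl⟩
  have hdg : ∀ s : ℂ, 1 < s.re → HasDerivAt g 0 s := by
    intro s hs
    have h1 := (hdl s hs).neg.cexp.mul (hdc s hs)
    rw [hg]
    refine h1.congr_deriv ?_
    simp only [Pi.neg_apply]
    ring
  have hconst : ∀ s t : ℂ, 1 < s.re → 1 < t.re → g s = g t := by
    intro s t hs ht
    refine hopen.is_const_of_deriv_eq_zero hconv.isPreconnected (fun x hx => (hdg x hx).differentiableAt.differentiableWithinAt)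
      (fun x hx => (hdg x hx).deriv) hs ht
  have hlim : Filter.Tendsto (fun x : ℝ => g x) Filter.atTop (nhds 1) := by
    have h1 : Filter.Tendsto (fun x : ℝ => LSeries l x) Filter.atTop (nhds (l 1)) :=
      LSeries.tendsto_atTop ((EXL_absc l hl).trans_lt (EReal.coe_lt_top 1))
    have h2 : Filter.Tendsto (fun x : ℝ => LSeries c x) Filter.atTop (nhds (c 1)) :=
      LSeries.tendsto_atTop ((EXL_absc c hc).trans_lt (EReal.coe_lt_top 1))
    have h3 : Filter.Tendsto (fun x : ℝ => Complex.exp (-LSeries l x) * LSeries c x) Filter.atTop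
        (nhds (Complex.exp (-l 1) * c 1)) :=
      ((Complex.continuous_exp.tendsto _).comp h1.neg).mul h2
    rw [hl1, hc1, neg_zero, Complex.exp_zero, mul_one] at h3
    rw [hg]
    exact h3
  have hone : ∀ s : ℂ, 1 < s.re → g s = 1 := by
    intro s hs
    refine tendsto_nhds_unique (Filter.Tendsto.congr' ?_ tendsto_const_nhds) hlim
    filter_upwards [Filter.eventually_gt_atTop (1 : ℝ)] with x hx
    exact hconst s x hs (by rw [Complex.ofReal_re]; exact hx)
  intro s hs
  constructor
  · have h := hone s hs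
    rw [hg] at h
    have h' : Complex.exp (-LSeries l s) * LSeries c s = 1 := h
    rw [Complex.exp_neg] at h'
    have h0 : Complex.exp (LSeries l s) ≠ 0 := Complex.exp_ne_zero _
    field_simp at h'
    exact h'.symm
  · rw [(hdc s hs).deriv, neg_neg]

end Pool.Agent.CH
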