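import Pool.Agent.helper82.CH.SpecE

/-!
# Project CH, stage 2, row DHR: the Deuring-Heilbronn phenomenon
-/

set_option autoImplicit false

open Complex

namespace Pool.Agent.CHE

/-- summability of `(log k)^m k^(-2)` -/
theorem DHR_slog (m : ℕ) : Summable (fun k : ℕ => Real.log k ^ m * ((k : ℝ) ^ 2)⁻¹) := by
  have h1 : (fun x : ℝ => Real.log x ^ m) =O[Filter.atTop] (fun x : ℝ => x ^ (1 / 2 : ℝ)) := by
    have h := (isLittleO_log_rpow_rpow_atTop (s := 1 / 2) (m : ℝ) (by norm_num)).isBigO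
    simp only [Real.rpow_natCast] at h
    exact h
  have h2 : (fun k : ℕ => Real.log k ^ m * ((k : ℝ) ^ 2)⁻¹) =O[Filter.atTop] (fun k : ℕ => (k : ℝ) ^ (-(3 / 2) : ℝ)) := by
    have h3 : (fun k : ℕ => Real.log k ^ m) =O[Filter.atTop] (fun k : ℕ => (k : ℝ) ^ (1 / 2 : ℝ)) := h1.comp_tendsto tendsto_natCast_atTop_atTop
    have h4 := h3.mul (Asymptotics.isBigO_refl (fun k : ℕ => ((k : ℝ) ^ 2)⁻¹) Filter.atTop)
    refine h4.congr' Filter.EventuallyEq.rfl ?_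
    filter_upwards [Filter.eventually_gt_atTop 0] with k hk
    have hk' : (0 : ℝ) < k := Nat.cast_pos.2 hk
    rw [← Real.rpow_natCast, ← Real.rpow_neg hk'.le, ← Real.rpow_add hk']
    norm_num
  exact summable_of_isBigO_nat (Real.summable_nat_rpow.2 (by norm_num)) h2

section
variable {Y : Type} [CommGroup Y] [Fintype Y]

theorem DHR_nrm (χ : Y →* ℂˣ) (y : Y) : ‖((χ y : ℂˣ) : ℂ)‖ = 1 := by
  have h : ((χ y : ℂˣ) : ℂ) ^ (Fintype.card Y) = 1 := by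
    rw [← Units.val_pow_eq_pow_val, ← map_pow, pow_card_eq_one, map_one, Units.val_one]
  exact Complex.norm_eq_one_of_pow_eq_one h Fintype.card_ne_zero

theorem DHR_ak {C l : ℝ} {b : Y → ℕ → ℝ} {E : (Y →* ℂˣ) → ℂ → ℂ} (h : Sys C l b E) (χ : Y →* ℂˣ) (k : ℕ) :
    ‖ak b χ k‖ ≤ C * Real.log k := by
  unfold ak
  have h0 : 0 ≤ C := le_trans zero_le_one h.C1
  refine (norm_sum_le _ _).trans ?_
  have h1 : ∀ y ∈ (Finset.univ : Finset Y), ‖((χ y : ℂˣ) : ℂ) * (b y k : ℂ)‖ ≤ b y k := by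
    intro y _
    rw [norm_mul, DHR_nrm, one_mul, Complex.norm_real, Real.norm_of_nonneg (h.nonneg y k)]
  refine (Finset.sum_le_sum h1).trans ((h.bd k).trans ?_)
  exact mul_le_mul_of_nonneg_left ArithmeticFunction.vonMangoldt_le_log h0

/-- the coefficients -/
noncomputable def DHR_c (b : Y → ℕ → ℝ) (j : ℕ) (χ : Y →* ℂˣ) (k : ℕ) : ℂ :=
  ak b χ k * ((Real.log k : ℂ) ^ j / (j.factorial : ℂ))

theorem DHR_sum {C l : ℝ} {b : Y → ℕ → ℝ} {E : (Y →* ℂˣ) → ℂ → ℂ} (h : Sys C l b E) (χ : Y →* ℂˣ) (j : ℕ) (t : ℝ) :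
    Summable (LSeries.term (DHR_c b j χ) (2 + t * I)) := by
  have h0 : 0 ≤ C := le_trans zero_le_one h.C1
  refine Summable.of_norm_bounded (g := fun k : ℕ => C * (Real.log k ^ (j + 1) * ((k : ℝ) ^ 2)⁻¹)) ((DHR_slog (j + 1)).mul_left C) ?_
  intro k
  rcases Nat.eq_zero_or_pos k with hk | hk
  · subst hk
    rw [LSeries.term_zero, norm_zero]
    simp
  · have hlog : 0 ≤ Real.log k := Real.log_natCast_nonneg k
    have hf : (1 : ℝ) ≤ (j.factorial : ℝ) := by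
      exact_mod_cast Nat.one_le_iff_ne_zero.2 (Nat.factorial_ne_zero j)
    rw [LSeries.term_of_ne_zero hk.ne', norm_div, Complex.norm_natCast_cpow_of_pos hk]
    have hre : (2 + (t : ℂ) * I).re = 2 := by simp
    rw [hre, DHR_c, norm_mul, norm_div, norm_pow, Complex.norm_real, Real.norm_of_nonneg hlog, Complex.norm_natCast, Real.rpow_two,
      div_eq_mul_inv, ← mul_assoc]
    have hk2 : 0 ≤ ((k : ℝ) ^ 2)⁻¹ := by positivity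
    refine mul_le_mul_of_nonneg_right ?_ hk2
    have h1 : Real.log k ^ j / (j.factorial : ℝ) ≤ Real.log k ^ j := div_le_self (pow_nonneg hlog j) hf
    calc ‖ak b χ k‖ * (Real.log k ^ j / (j.factorial : ℝ)) ≤ (C * Real.log k) * Real.log k ^ j :=
          mul_le_mul (DHR_ak h χ k) h1 (by positivity) (mul_nonneg h0 hlog)
      _ = C * Real.log k ^ (j + 1) := by ring

/-- the sign of one summand -/
theorem DHR_sgn (β : ℝ) (hβ : 0 ≤ β) (u v : ℂ) (hu : u ^ 2 = 1) (hv : ‖v‖ ≤ 1) : 0 ≤ ((β : ℂ) * (1 + u) * (1 + v)).re := by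
  have hv1 : 0 ≤ 1 + v.re := by
    have := (abs_le.1 (Complex.abs_re_le_norm v)).1
    linarith
  have h2 : (u - 1) * (u + 1) = 0 := by
    linear_combination hu
  rcases mul_eq_zero.1 h2 with h | h
  · have h3 : u = 1 := by linear_combination h
    rw [h3, mul_assoc, Complex.re_ofReal_mul]
    refine mul_nonneg hβ ?_
    have h4 : ((1 + 1 : ℂ) * (1 + v)).re = 2 * (1 + v.re) := by
      rw [one_add_one_eq_two, Complex.mul_re]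
      simp
    rw [h4]
    linarith
  · have h3 : 1 + u = 0 := by linear_combination h
    rw [h3, mul_zero, zero_mul, Complex.zero_re]

/-- the identity for one term -/
theorem DHR_term {b : Y → ℕ → ℝ} (χ₁ χ : Y →* ℂˣ) (j k : ℕ) (hk : 0 < k) (t : ℝ) :
    LSeries.term (DHR_c b j 1) (2 + ((0 : ℝ) : ℂ) * I) k + LSeries.term (DHR_c b j χ₁) (2 + ((0 : ℝ) : ℂ) * I) k +
      (LSeries.term (DHR_c b j χ) (2 + (t : ℂ) * I) k + LSeries.term (DHR_c b j (χ * χ₁)) (2 + (t : ℂ) * I) k) =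
    ((Real.log k ^ j / (j.factorial : ℝ) * ((k : ℝ) ^ 2)⁻¹ : ℝ) : ℂ) *
      ∑ y, ((b y k : ℝ) : ℂ) * (1 + ((χ₁ y : ℂˣ) : ℂ)) * (1 + ((χ y : ℂˣ) : ℂ) * ((k : ℂ) ^ ((t : ℂ) * I))⁻¹) := by
  have hk0 : (k : ℂ) ≠ 0 := Nat.cast_ne_zero.2 hk.ne'
  have e0 : (k : ℂ) ^ (2 + ((0 : ℝ) : ℂ) * I) = (k : ℂ) ^ 2 := by
    rw [Complex.ofReal_zero, zero_mul, add_zero, Complex.cpow_ofNat]
  have e1 : (k : ℂ) ^ (2 + (t : ℂ) * I) = (k : ℂ) ^ 2 * (k : ℂ) ^ ((t : ℂ) * I) := by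
    rw [Complex.cpow_add _ _ hk0, Complex.cpow_ofNat]
  rw [LSeries.term_of_ne_zero hk.ne', LSeries.term_of_ne_zero hk.ne', LSeries.term_of_ne_zero hk.ne', LSeries.term_of_ne_zero hk.ne', e0, e1]
  have h1 : ak b (1 : Y →* ℂˣ) k + ak b χ₁ k + (ak b χ k + ak b (χ * χ₁) k) * ((k : ℂ) ^ ((t : ℂ) * I))⁻¹ =
      ∑ y, ((b y k : ℝ) : ℂ) * (1 + ((χ₁ y : ℂˣ) : ℂ)) * (1 + ((χ y : ℂˣ) : ℂ) * ((k : ℂ) ^ ((t : ℂ) * I))⁻¹) := by
    unfold ak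
    rw [← Finset.sum_add_distrib, ← Finset.sum_add_distrib, Finset.sum_mul, ← Finset.sum_add_distrib]
    refine Finset.sum_congr rfl fun y _ => ?_
    rw [MonoidHom.one_apply, MonoidHom.mul_apply, Units.val_one, Units.val_mul]
    ring
  rw [← h1]
  unfold DHR_c
  push_cast
  have hw : (k : ℂ) ^ ((t : ℂ) * I) ≠ 0 := by
    rw [Ne, Complex.cpow_eq_zero_iff]
    exact fun h => hk0 h.1
  have hf : (j.factorial : ℂ) ≠ 0 := Nat.cast_ne_zero.2 (Nat.factorial_ne_zero j)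
  field_simp

/-- **positivity** -/
theorem DHR_pos {C l : ℝ} {b : Y → ℕ → ℝ} {E : (Y →* ℂˣ) → ℂ → ℂ} (h : Sys C l b E) (χ₁ χ : Y →* ℂˣ) (h1 : χ₁ ^ 2 = 1) (j : ℕ) (t : ℝ) :
    0 ≤ (LSeries (DHR_c b j 1) (2 + ((0 : ℝ) : ℂ) * I) + LSeries (DHR_c b j χ₁) (2 + ((0 : ℝ) : ℂ) * I) +
      (LSeries (DHR_c b j χ) (2 + (t : ℂ) * I) + LSeries (DHR_c b j (χ * χ₁)) (2 + (t : ℂ) * I))).re := by
  have s1 := DHR_sum h 1 j 0
  have s2 := DHR_sum h χ₁ j 0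
  have s3 := DHR_sum h χ j t
  have s4 := DHR_sum h (χ * χ₁) j t
  unfold LSeries
  rw [← s1.tsum_add s2, ← s3.tsum_add s4, ← (s1.add s2).tsum_add (s3.add s4), Complex.re_tsum ((s1.add s2).add (s3.add s4))]
  refine tsum_nonneg fun k => ?_
  rcases Nat.eq_zero_or_pos k with hk | hk
  · subst hk
    rw [LSeries.term_zero, LSeries.term_zero, LSeries.term_zero, LSeries.term_zero]
    simp
  · rw [DHR_term χ₁ χ j k hk t, Complex.re_ofReal_mul, Complex.re_sum]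
    have hlog : 0 ≤ Real.log k := Real.log_natCast_nonneg k
    refine mul_nonneg (by positivity) (Finset.sum_nonneg fun y _ => ?_)
    refine DHR_sgn (b y k) (h.nonneg y k) _ _ ?_ ?_
    · rw [← Units.val_pow_eq_pow_val, ← MonoidHom.pow_apply, h1, MonoidHom.one_apply, Units.val_one]
    · rw [norm_mul, DHR_nrm, one_mul, norm_inv, Complex.norm_natCast_cpow_of_pos hk]
      have hre : ((t : ℂ) * I).re = 0 := by simp
      rw [hre, Real.rpow_zero, inv_one]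

/-- difference of inverse powers -/
theorem DHR_inv (w : ℂ) (x : ℝ) (hw : 1 ≤ w.re) (hx : 0 ≤ x) (J : ℕ) : ‖1 / w ^ J - 1 / (w + x) ^ J‖ ≤ J * x := by
  have n1 : 1 ≤ ‖w‖ := hw.trans (Complex.re_le_norm w)
  have n2 : 1 ≤ ‖w + x‖ := by
    refine le_trans ?_ (Complex.re_le_norm (w + x))
    rw [Complex.add_re, Complex.ofReal_re]
    linarith
  have w0 : w ≠ 0 := by
    intro h
    rw [h, norm_zero] at n1
    linarith
  have w1 : w + x ≠ 0 := by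
    intro h
    rw [h, norm_zero] at n2
    linarith
  have i1 : ‖w⁻¹‖ ≤ 1 := by
    rw [norm_inv]
    exact inv_le_one_of_one_le₀ n1
  have i2 : ‖(w + x)⁻¹‖ ≤ 1 := by
    rw [norm_inv]
    exact inv_le_one_of_one_le₀ n2
  have i3 : ‖w⁻¹ - (w + x)⁻¹‖ ≤ x := by
    have h1 : w⁻¹ - (w + x)⁻¹ = (x : ℂ) * (w⁻¹ * (w + x)⁻¹) := by
      field_simp
      ring
    rw [h1, norm_mul, norm_mul, Complex.norm_real, Real.norm_of_nonneg hx]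
    calc x * (‖w⁻¹‖ * ‖(w + x)⁻¹‖) ≤ x * (1 * 1) :=
          mul_le_mul_of_nonneg_left (mul_le_mul i1 i2 (norm_nonneg _) zero_le_one) hx
      _ = x := by ring
  rw [one_div, one_div, ← inv_pow, ← inv_pow]
  induction J with
  | zero => simp
  | succ n ih =>
    have h1 : w⁻¹ ^ (n + 1) - (w + x)⁻¹ ^ (n + 1) = w⁻¹ * (w⁻¹ ^ n - (w + x)⁻¹ ^ n) + (w⁻¹ - (w + x)⁻¹) * (w + x)⁻¹ ^ n := by ring
    rw [h1]
    refine (norm_add_le _ _).trans ?_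
    rw [norm_mul, norm_mul, norm_pow]
    have h2 : ‖(w + (x : ℂ))⁻¹‖ ^ n ≤ 1 := pow_le_one₀ (norm_nonneg _) i2
    have h3 : ‖w⁻¹‖ * ‖w⁻¹ ^ n - (w + x)⁻¹ ^ n‖ ≤ 1 * ((n : ℝ) * x) := mul_le_mul i1 ih (norm_nonneg _) zero_le_one
    have h4 : ‖w⁻¹ - (w + x)⁻¹‖ * ‖(w + (x : ℂ))⁻¹‖ ^ n ≤ x * 1 := mul_le_mul i3 h2 (by positivity) hx
    push_cast
    linarith

/-- removing one zero from a list -/
theorem DHR_rem {N : ℕ} (ρ : Fin N → ℂ) (s β : ℂ) (P : Prop) [Decidable P] (Q : Fin N → Prop) (h : P → ∃ i₁, Q i₁ ∧ ρ i₁ = β) :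
    ∃ z : Fin N → ℂ, (∀ i, z i = 0 ∨ z i = ((s - ρ i) ^ 2)⁻¹) ∧ (∀ i, ¬ Q i → z i = ((s - ρ i) ^ 2)⁻¹) ∧
      ∀ k : ℕ, 1 ≤ k → ∑ i, z i ^ k = ∑ i, 1 / (s - ρ i) ^ (2 * k) - if P then 1 / (s - β) ^ (2 * k) else 0 := by
  classical
  by_cases hP : P
  · obtain ⟨i₁, hQ, hi₁⟩ := h hP
    refine ⟨fun i => if i = i₁ then 0 else ((s - ρ i) ^ 2)⁻¹, fun i => ?_, fun i hi => ?_, fun k hk => ?_⟩
    · by_cases h1 : i = i₁
      · left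
        exact if_pos h1
      · right
        exact if_neg h1
    · have h1 : i ≠ i₁ := by
        intro h2
        rw [h2] at hi
        exact hi hQ
      exact if_neg h1
    · rw [if_pos hP, ← hi₁, ← Finset.add_sum_erase Finset.univ (fun i => 1 / (s - ρ i) ^ (2 * k)) (Finset.mem_univ i₁),
        ← Finset.add_sum_erase Finset.univ (fun i => (if i = i₁ then (0 : ℂ) else ((s - ρ i) ^ 2)⁻¹) ^ k) (Finset.mem_univ i₁)]
      have h1 : ∑ x ∈ Finset.univ.erase i₁, (if x = i₁ then (0 : ℂ) else ((s - ρ x) ^ 2)⁻¹) ^ k = ∑ x ∈ Finset.univ.erase i₁, 1 / (s - ρ x) ^ (2 * k) := by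
        refine Finset.sum_congr rfl fun x hx => ?_
        rw [if_neg (Finset.ne_of_mem_erase hx), inv_pow, ← pow_mul, one_div]
      rw [h1, if_pos rfl, zero_pow (by omega)]
      ring
  · refine ⟨fun i => ((s - ρ i) ^ 2)⁻¹, fun i => Or.inr rfl, fun i _ => rfl, fun k hk => ?_⟩
    rw [if_neg hP, sub_zero]
    refine Finset.sum_congr rfl fun x _ => ?_
    rw [inv_pow, ← pow_mul, one_div]

/-- the power sum inequality for a finite family -/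
theorem DHR_tps (hTPS : TPS_stmt) {ι : Type} [Fintype ι] (z : ι → ℂ) (M : ℝ) (hM : 0 ≤ M) (i' : ι) (hz : 0 < ‖z i'‖) (hs : ∑ i, ‖z i‖ ≤ M * ‖z i'‖) :
    ∃ k : ℕ, 1 ≤ k ∧ (k : ℝ) ≤ 24 * M ∧ 1 / 8 * ‖z i'‖ ^ k ≤ (∑ i, z i ^ k).re := by
  have : Nonempty ι := ⟨i'⟩
  obtain ⟨i₀, h₀⟩ := Finite.exists_max (fun i => ‖z i‖)
  obtain ⟨e⟩ : Nonempty (ι ≃ Fin (Fintype.card ι)) := ⟨Fintype.equivFin ι⟩
  have h1 : 0 < ‖z i₀‖ := lt_of_lt_of_le hz (h₀ i')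
  obtain ⟨k, hk1, hk2, hk3⟩ := hTPS (Fintype.card ι) (fun i => z (e.symm i)) (e i₀) M (by
    show z (e.symm (e i₀)) ≠ 0
    rw [e.symm_apply_apply]
    exact norm_pos_iff.1 h1) (fun i => by
    show ‖z (e.symm i)‖ ≤ ‖z (e.symm (e i₀))‖
    rw [e.symm_apply_apply]
    exact h₀ _) (by
    show ∑ i, ‖z (e.symm i)‖ ≤ M * ‖z (e.symm (e i₀))‖
    rw [e.symm_apply_apply, Equiv.sum_comp e.symm (fun i => ‖z i‖)]
    exact hs.trans (mul_le_mul_of_nonneg_left (h₀ i') hM))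
  refine ⟨k, hk1, hk2, ?_⟩
  rw [Equiv.sum_comp e.symm (fun i => z i ^ k)] at hk3
  have h2 : z (e.symm (e i₀)) = z i₀ := by rw [e.symm_apply_apply]
  rw [h2] at hk3
  refine le_trans ?_ hk3
  exact mul_le_mul_of_nonneg_left (pow_le_pow_left₀ (norm_nonneg _) (h₀ i') k) (by norm_num)

/-- choice of the radius -/
theorem DHR_R (C l ε : ℝ) (hC : 1 ≤ C) (hl : 1 ≤ l) (hε : 0 < ε) :
    ∃ R : ℝ, 80 ≤ R ∧ ∀ j : ℕ, 1 ≤ j → 6 * MM C l R * ((j : ℝ) + 1) * (8 / R) ^ (j + 1) ≤ ε := by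
  obtain ⟨S, hS⟩ : ∃ S : ℝ, S = 10 + 768 * C * (2 * l + 9) / ε := ⟨_, rfl⟩
  have hq : 0 ≤ 768 * C * (2 * l + 9) / ε := by positivity
  have hS10 : 10 ≤ S := by
    rw [hS]
    linarith
  have hS0 : 0 < S := by linarith
  have hSε : 768 * C * (2 * l + 9) ≤ ε * S := by
    have h1 : 768 * C * (2 * l + 9) = ε * (768 * C * (2 * l + 9) / ε) := by
      field_simp
    rw [h1]
    refine mul_le_mul_of_nonneg_left ?_ hε.le
    rw [hS]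
    linarith
  refine ⟨S ^ 2, by nlinarith, fun j hj => ?_⟩
  have hlog : Real.log (70 + S ^ 2) ≤ 4 * S := by
    have h1 : 70 + S ^ 2 ≤ (2 * S) ^ 2 := by nlinarith
    have h2 : Real.log (70 + S ^ 2) ≤ Real.log ((2 * S) ^ 2) := Real.log_le_log (by positivity) h1
    rw [Real.log_pow] at h2
    have h3 : Real.log (2 * S) ≤ 2 * S - 1 := Real.log_le_sub_one_of_pos (by positivity)
    push_cast at h2
    linarith
  have hMM : MM C l (S ^ 2) ≤ C * (2 * l + 9) * S ^ 3 := by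
    unfold MM
    have h1 : 70 + S ^ 2 ≤ 2 * S ^ 2 := by nlinarith
    have h2 : l + Real.log (70 + S ^ 2) ≤ l + 4 * S := by linarith
    have h0 : 0 ≤ l + Real.log (70 + S ^ 2) := by
      have : 0 ≤ Real.log (70 + S ^ 2) := Real.log_nonneg (by nlinarith)
      linarith
    have h3 : C * (70 + S ^ 2) * (l + Real.log (70 + S ^ 2)) ≤ C * (2 * S ^ 2) * (l + 4 * S) := by
      refine mul_le_mul (mul_le_mul_of_nonneg_left h1 (by linarith)) h2 h0 (by positivity)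
    have h4 : C * (2 * S ^ 2) * (l + 4 * S) + C ≤ C * (2 * l + 9) * S ^ 3 := by
      have h5 : 2 * S ^ 2 * (l + 4 * S) + 1 ≤ (2 * l + 9) * S ^ 3 := by
        have h6 : S ^ 2 ≤ S ^ 3 := by nlinarith [sq_nonneg S]
        have h7 : 1 ≤ S ^ 3 := by nlinarith [sq_nonneg S]
        nlinarith
      calc C * (2 * S ^ 2) * (l + 4 * S) + C = C * (2 * S ^ 2 * (l + 4 * S) + 1) := by ring
        _ ≤ C * ((2 * l + 9) * S ^ 3) := mul_le_mul_of_nonneg_left h5 (by linarith)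
        _ = C * (2 * l + 9) * S ^ 3 := by ring
    linarith
  have hx0 : 0 ≤ 8 / S ^ 2 := by positivity
  have hx1 : 8 / S ^ 2 ≤ 1 / 2 := by
    rw [div_le_div_iff₀ (by positivity) (by norm_num)]
    nlinarith
  have hj2 : ∀ n : ℕ, 1 ≤ n → ((n : ℝ) + 1) * (8 / S ^ 2) ^ (n + 1) ≤ 2 * (8 / S ^ 2) ^ 2 := by
    intro n hn
    induction n, hn using Nat.le_induction with
    | base =>
      norm_num
    | succ n hn ih =>
      refine le_trans ?_ ih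
      have h1 : (((n + 1 : ℕ) : ℝ) + 1) * (8 / S ^ 2) ≤ (n : ℝ) + 1 := by
        push_cast
        have hn' : (1 : ℝ) ≤ n := by exact_mod_cast hn
        nlinarith
      calc (((n + 1 : ℕ) : ℝ) + 1) * (8 / S ^ 2) ^ (n + 1 + 1) = ((((n + 1 : ℕ) : ℝ) + 1) * (8 / S ^ 2)) * (8 / S ^ 2) ^ (n + 1) := by ring
        _ ≤ ((n : ℝ) + 1) * (8 / S ^ 2) ^ (n + 1) := mul_le_mul_of_nonneg_right h1 (by positivity)
  have hMM0 : 0 ≤ 6 * MM C l (S ^ 2) := by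
    unfold MM
    have : 0 ≤ Real.log (70 + S ^ 2) := Real.log_nonneg (by nlinarith)
    positivity
  calc 6 * MM C l (S ^ 2) * ((j : ℝ) + 1) * (8 / S ^ 2) ^ (j + 1) = 6 * MM C l (S ^ 2) * (((j : ℝ) + 1) * (8 / S ^ 2) ^ (j + 1)) := by ring
    _ ≤ 6 * MM C l (S ^ 2) * (2 * (8 / S ^ 2) ^ 2) := mul_le_mul_of_nonneg_left (hj2 j hj) hMM0
    _ ≤ 6 * (C * (2 * l + 9) * S ^ 3) * (2 * (8 / S ^ 2) ^ 2) := by
        refine mul_le_mul_of_nonneg_right (mul_le_mul_of_nonneg_left hMM (by norm_num)) (by positivity)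
    _ = 768 * C * (2 * l + 9) / S := by
        field_simp
        ring
    _ ≤ ε := by
        rw [div_le_iff₀ hS0]
        exact hSε

/-- the zeros of one list are in the other list: two different indices -/
theorem DHR_mem2 {C l : ℝ} {b : Y → ℕ → ℝ} {E : (Y →* ℂˣ) → ℂ → ℂ} {χ : Y →* ℂˣ} {t t' R R' : ℝ} {N N' : ℕ} {ρ : Fin N → ℂ} {ρ' : Fin N' → ℂ}
    (h : ZL C l b E χ t R N ρ) (h' : ZL C l b E χ t' R' N' ρ') (i₁ i₂ : Fin N) (hi : i₁ ≠ i₂)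
    (h1 : ‖ρ i₁ - (2 + t' * I)‖ ≤ R' / 2) (h2 : ‖ρ i₂ - (2 + t' * I)‖ ≤ R' / 2) :
    ∃ j₁ j₂ : Fin N', j₁ ≠ j₂ ∧ ρ' j₁ = ρ i₁ ∧ ρ' j₂ = ρ i₂ := by
  by_cases he : ρ i₁ = ρ i₂
  · have k1 := h.mult (ρ i₁) (h.dist i₁)
    have k2 := h'.mult (ρ i₁) h1
    have hn : 1 < Nat.card {i // ρ i = ρ i₁} := by
      rw [Finite.one_lt_card_iff_nontrivial]
      exact ⟨⟨i₁, rfl⟩, ⟨i₂, he.symm⟩, fun h3 => hi (congrArg Subtype.val h3)⟩
    rw [k1, ← k2, Finite.one_lt_card_iff_nontrivial] at hn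
    obtain ⟨⟨j₁, e1⟩, ⟨j₂, e2⟩, hj⟩ := hn
    exact ⟨j₁, j₂, fun h3 => hj (Subtype.ext h3), e1, e2.trans he⟩
  · have key : ∀ i : Fin N, ‖ρ i - (2 + t' * I)‖ ≤ R' / 2 → ∃ j : Fin N', ρ' j = ρ i := by
      intro i hd
      have k1 := h.mult (ρ i) (h.dist i)
      have k2 := h'.mult (ρ i) hd
      have hn : 0 < Nat.card {i' // ρ i' = ρ i} := by
        rw [Nat.card_pos_iff]
        exact ⟨⟨i, rfl⟩, inferInstance⟩
      rw [k1, ← k2, Nat.card_pos_iff] at hn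
      obtain ⟨⟨j, e⟩⟩ := hn.1
      exact ⟨j, e⟩
    obtain ⟨j₁, e1⟩ := key i₁ h1
    obtain ⟨j₂, e2⟩ := key i₂ h2
    refine ⟨j₁, j₂, fun h3 => he ?_, e1, e2⟩
    rw [← e1, ← e2, h3]

/-- the zeros of one list are in the other list -/
theorem DHR_mem1 {C l : ℝ} {b : Y → ℕ → ℝ} {E : (Y →* ℂˣ) → ℂ → ℂ} {χ : Y →* ℂˣ} {t t' R R' : ℝ} {N N' : ℕ} {ρ : Fin N → ℂ} {ρ' : Fin N' → ℂ}
    (h : ZL C l b E χ t R N ρ) (h' : ZL C l b E χ t' R' N' ρ') (i : Fin N)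
    (h1 : ‖ρ i - (2 + t' * I)‖ ≤ R' / 2) : ∃ j : Fin N', ρ' j = ρ i := by
  have k1 := h.mult (ρ i) (h.dist i)
  have k2 := h'.mult (ρ i) h1
  have hn : 0 < Nat.card {i' // ρ i' = ρ i} := by
    rw [Nat.card_pos_iff]
    exact ⟨⟨i, rfl⟩, inferInstance⟩
  rw [k1, ← k2, Nat.card_pos_iff] at hn
  obtain ⟨⟨j, e⟩⟩ := hn.1
  exact ⟨j, e⟩

/-- the zeros of the given lists are in the larger discs -/
theorem DHR_dist {C l : ℝ} {b : Y → ℕ → ℝ} {E : (Y →* ℂˣ) → ℂ → ℂ} {χ : Y →* ℂˣ} {N : ℕ} {ρ : Fin N → ℂ}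
    (h : ZL C l b E χ 0 40 N ρ) (i : Fin N) (t R : ℝ) (ht : |t| ≤ 20) (hR : 80 ≤ R) : ‖ρ i - (2 + t * I)‖ ≤ R / 2 := by
  have h1 := h.dist i
  have h2 : ρ i - (2 + t * I) = (ρ i - (2 + ((0 : ℝ) : ℂ) * I)) - t * I := by
    rw [Complex.ofReal_zero]
    ring
  rw [h2]
  refine (norm_sub_le _ _).trans ?_
  rw [norm_mul, Complex.norm_I, Complex.norm_real, Real.norm_eq_abs, mul_one]
  linarith

/-- one pair -/
theorem DHR_one {C l : ℝ} {b : Y → ℕ → ℝ} {E : (Y →* ℂˣ) → ℂ → ℂ} {φ : Y →* ℂˣ} {t R ε : ℝ} {N : ℕ} {ρ : Fin N → ℂ}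
    (h : ZL C l b E φ t R N ρ) (hR : 0 ≤ R) (hε : ∀ j : ℕ, 1 ≤ j → 6 * MM C l R * ((j : ℝ) + 1) * (8 / R) ^ (j + 1) ≤ ε)
    (β : ℂ) (P : Prop) [Decidable P] (Q : Fin N → Prop) (hP : P → ∃ i₁, Q i₁ ∧ ρ i₁ = β) :
    ∃ z : Fin N → ℂ, (∀ i, ‖z i‖ ≤ 1 / ‖(2 + t * I : ℂ) - ρ i‖ ^ 2) ∧ (∀ i, ¬ Q i → z i = ((2 + t * I - ρ i) ^ 2)⁻¹) ∧
      ∀ k : ℕ, 1 ≤ k → (∑ i, z i ^ k).re ≤ (dl φ / (2 + t * I - 1) ^ (2 * k) - if P then 1 / (2 + t * I - β) ^ (2 * k) else 0).re -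
        (LSeries (DHR_c b (2 * k - 1) φ) (2 + t * I)).re + ε := by
  obtain ⟨z, hz1, hz2, hz3⟩ := DHR_rem ρ (2 + t * I) β P Q hP
  refine ⟨z, fun i => ?_, hz2, fun k hk => ?_⟩
  · rcases hz1 i with h1 | h1
    · rw [h1, norm_zero]
      positivity
    · rw [h1, norm_inv, norm_pow, one_div]
  · rw [hz3 k hk]
    have hre : (2 + (t : ℂ) * I).re = 2 := by simp
    have h1 := (h.form (2 + t * I) (by rw [hre]; norm_num) (by rw [sub_self, norm_zero]; positivity) (2 * k - 1)).trans (hε (2 * k - 1) (by omega))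
    have h2 : 2 * k - 1 + 1 = 2 * k := by omega
    rw [h2] at h1
    have h3 := (Complex.re_le_norm _).trans h1
    have h4 : LSeries (fun k' => ak b φ k' * ((Real.log k' : ℂ) ^ (2 * k - 1) / ((2 * k - 1).factorial : ℂ))) (2 + t * I) =
        LSeries (DHR_c b (2 * k - 1) φ) (2 + t * I) := rfl
    rw [h4] at h3
    rw [Complex.add_re, Complex.sub_re] at h3
    rw [Complex.sub_re, Complex.sub_re]
    linarith

open Classical in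
/-- the poles and the removed zeros -/
theorem DHR_two (χ₁ φ : Y →* ℂˣ) (h1 : χ₁ ^ 2 = 1) (t β : ℝ) (hβ : β ≤ 1) (J : ℕ) :
    (dl φ / (2 + t * I - 1) ^ J - if φ = χ₁ then 1 / (2 + t * I - (β : ℂ)) ^ J else 0).re +
      (dl (φ * χ₁) / (2 + t * I - 1) ^ J - if φ * χ₁ = χ₁ then 1 / (2 + t * I - (β : ℂ)) ^ J else 0).re ≤ 2 * (J * (1 - β)) := by
  obtain ⟨w, hw⟩ : ∃ w : ℂ, w = 2 + t * I - 1 := ⟨_, rfl⟩
  have hw2 : 2 + t * I - (β : ℂ) = w + ((1 - β : ℝ) : ℂ) := by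
    rw [hw]
    push_cast
    ring
  have hre : 1 ≤ w.re := by
    rw [hw]
    simp
    norm_num
  have hd := DHR_inv w (1 - β) hre (by linarith) J
  have hd' : (1 / w ^ J - 1 / (w + ((1 - β : ℝ) : ℂ)) ^ J).re ≤ J * (1 - β) := (Complex.re_le_norm _).trans hd
  have hnn : 0 ≤ (J : ℝ) * (1 - β) := mul_nonneg (Nat.cast_nonneg J) (by linarith)
  rw [hw2, ← hw]
  have h11 : ∀ y, χ₁ y * χ₁ y = 1 := by
    intro y
    rw [← sq, ← MonoidHom.pow_apply, h1, MonoidHom.one_apply]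
  have e1 : (φ * χ₁ = χ₁) ↔ φ = 1 := by
    constructor
    · intro h
      refine MonoidHom.ext fun y => ?_
      have h2 := DFunLike.congr_fun h y
      rw [MonoidHom.mul_apply] at h2
      rw [MonoidHom.one_apply]
      exact mul_eq_right.1 h2
    · intro h
      refine MonoidHom.ext fun y => ?_
      rw [h, MonoidHom.mul_apply, MonoidHom.one_apply, one_mul]
  have e2 : (φ * χ₁ = 1) ↔ φ = χ₁ := by
    constructor
    · intro h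
      refine MonoidHom.ext fun y => ?_
      have h2 := DFunLike.congr_fun h y
      rw [MonoidHom.mul_apply, MonoidHom.one_apply] at h2
      calc φ y = φ y * (χ₁ y * χ₁ y) := by rw [h11, mul_one]
        _ = (φ y * χ₁ y) * χ₁ y := by rw [mul_assoc]
        _ = χ₁ y := by rw [h2, one_mul]
    · intro h
      refine MonoidHom.ext fun y => ?_
      rw [h, MonoidHom.mul_apply, MonoidHom.one_apply, h11]
  have key : ∀ (A B : Prop) [Decidable A] [Decidable B], ((if A then (1 : ℂ) else 0) / w ^ J - if B then 1 / (w + ((1 - β : ℝ) : ℂ)) ^ J else 0).re +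
      ((if B then (1 : ℂ) else 0) / w ^ J - if A then 1 / (w + ((1 - β : ℝ) : ℂ)) ^ J else 0).re ≤ 2 * (J * (1 - β)) := by
    intro A B _ _
    rw [Complex.sub_re] at hd'
    by_cases hA : A
    · by_cases hB : B
      · rw [if_pos hA, if_pos hB, if_pos hA, if_pos hB, Complex.sub_re]
        linarith
      · rw [if_pos hA, if_neg hB, if_pos hA, if_neg hB, Complex.sub_re, Complex.sub_re, zero_div, Complex.zero_re]
        linarith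
    · by_cases hB : B
      · rw [if_neg hA, if_pos hB, if_neg hA, if_pos hB, Complex.sub_re, Complex.sub_re, zero_div, Complex.zero_re]
        linarith
      · rw [if_neg hA, if_neg hB, if_neg hA, if_neg hB, zero_div, sub_zero, Complex.zero_re]
        linarith
  have k1 := key (φ = 1) (φ = χ₁)
  have k2 : dl φ = if φ = 1 then 1 else 0 := rfl
  have k3 : dl (φ * χ₁) = if φ = χ₁ then 1 else 0 := by
    unfold dl
    by_cases h : φ = χ₁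
    · rw [if_pos h, if_pos (e2.2 h)]
    · rw [if_neg h, if_neg (fun h' => h (e2.1 h'))]
  have k4 : (if φ * χ₁ = χ₁ then 1 / (w + ((1 - β : ℝ) : ℂ)) ^ J else 0) = if φ = 1 then 1 / (w + ((1 - β : ℝ) : ℂ)) ^ J else 0 := by
    by_cases h : φ = 1
    · rw [if_pos h, if_pos (e1.2 h)]
    · rw [if_neg h, if_neg (fun h' => h (e1.1 h'))]
  rw [k2, k3, k4]
  exact k1

open Classical in
/-- the combination of the four lists -/
theorem DHR_four (hTPS : TPS_stmt) {C l K ε : ℝ} {b : Y → ℕ → ℝ} {E : (Y →* ℂˣ) → ℂ → ℂ} (h : Sys C l b E)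
    (χ₁ χ : Y →* ℂˣ) (h1 : χ₁ ^ 2 = 1) (γ β₁ β : ℝ) (hβ1 : β₁ ≤ 1) (hβ0 : 0 < β) (hβ : β ≤ 1) (hεβ : ε = 1 - β₁) (R : ℝ) (hR : 0 ≤ R) (hKl : 0 ≤ K * l)
    (hε : ∀ j : ℕ, 1 ≤ j → 6 * MM C l R * ((j : ℝ) + 1) * (8 / R) ^ (j + 1) ≤ ε)
    {N₁ N₂ N₃ N₄ : ℕ} {ρ₁ : Fin N₁ → ℂ} {ρ₂ : Fin N₂ → ℂ} {ρ₃ : Fin N₃ → ℂ} {ρ₄ : Fin N₄ → ℂ}
    (L₁ : ZL C l b E 1 0 R N₁ ρ₁) (L₂ : ZL C l b E χ₁ 0 R N₂ ρ₂) (L₃ : ZL C l b E χ γ R N₃ ρ₃) (L₄ : ZL C l b E (χ * χ₁) γ R N₄ ρ₄)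
    (m₁ : (1 : Y →* ℂˣ) = χ₁ → ∃ i, ρ₁ i = β₁) (m₂ : ∃ i, ρ₂ i = β₁) (i₃ : Fin N₃) (m₃ : ρ₃ i₃ = β + γ * I)
    (m₃' : χ = χ₁ → ∃ i, i ≠ i₃ ∧ ρ₃ i = β₁) (m₄ : χ * χ₁ = χ₁ → ∃ i, ρ₄ i = β₁)
    (K₁ : ∑ i, 1 / ‖(2 + (0 : ℝ) * I : ℂ) - ρ₁ i‖ ^ 2 ≤ K * l) (K₂ : ∑ i, 1 / ‖(2 + (0 : ℝ) * I : ℂ) - ρ₂ i‖ ^ 2 ≤ K * l)
    (K₃ : ∑ i, 1 / ‖(2 + γ * I : ℂ) - ρ₃ i‖ ^ 2 ≤ K * l) (K₄ : ∑ i, 1 / ‖(2 + γ * I : ℂ) - ρ₄ i‖ ^ 2 ≤ K * l) :
    ∃ k : ℕ, 1 ≤ k ∧ (k : ℝ) ≤ 384 * (K * l) ∧ 1 / 8 * (((2 - β) ^ 2)⁻¹) ^ k ≤ 12 * k * (1 - β₁) := by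
  obtain ⟨z₁, n₁, -, f₁⟩ := DHR_one L₁ hR hε (β₁ : ℂ) ((1 : Y →* ℂˣ) = χ₁) (fun _ => True) (fun hP => by
    obtain ⟨i, hi⟩ := m₁ hP
    exact ⟨i, trivial, hi⟩)
  obtain ⟨z₂, n₂, -, f₂⟩ := DHR_one L₂ hR hε (β₁ : ℂ) (χ₁ = χ₁) (fun _ => True) (fun hP => by
    obtain ⟨i, hi⟩ := m₂
    exact ⟨i, trivial, hi⟩)
  obtain ⟨z₃, n₃, g₃, f₃⟩ := DHR_one L₃ hR hε (β₁ : ℂ) (χ = χ₁) (fun i => i ≠ i₃) m₃'
  obtain ⟨z₄, n₄, -, f₄⟩ := DHR_one L₄ hR hε (β₁ : ℂ) (χ * χ₁ = χ₁) (fun _ => True) (fun hP => by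
    obtain ⟨i, hi⟩ := m₄ hP
    exact ⟨i, trivial, hi⟩)
  have hz3 : z₃ i₃ = (((2 - β) ^ 2 : ℝ) : ℂ)⁻¹ := by
    rw [g₃ i₃ (fun h2 => h2 rfl), m₃]
    push_cast
    have h2 : (2 + (γ : ℂ) * I - (β + γ * I)) = 2 - β := by ring
    rw [h2]
  have hz3n : ‖z₃ i₃‖ = ((2 - β) ^ 2)⁻¹ := by
    rw [hz3, norm_inv, Complex.norm_real, Real.norm_of_nonneg (by positivity)]
  have hz3l : 1 / 4 ≤ ‖z₃ i₃‖ := by
    rw [hz3n, one_div]
    refine inv_anti₀ (by nlinarith) (by nlinarith)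
  have hs : ∑ i, ‖(Sum.elim z₁ (Sum.elim z₂ (Sum.elim z₃ z₄)) : Fin N₁ ⊕ (Fin N₂ ⊕ (Fin N₃ ⊕ Fin N₄)) → ℂ) i‖ ≤ 4 * (K * l) := by
    rw [Fintype.sum_sum_type, Fintype.sum_sum_type, Fintype.sum_sum_type]
    simp only [Sum.elim_inl, Sum.elim_inr]
    have k₁ := (Finset.sum_le_sum fun i (_ : i ∈ (Finset.univ : Finset (Fin N₁))) => n₁ i).trans K₁
    have k₂ := (Finset.sum_le_sum fun i (_ : i ∈ (Finset.univ : Finset (Fin N₂))) => n₂ i).trans K₂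
    have k₃ := (Finset.sum_le_sum fun i (_ : i ∈ (Finset.univ : Finset (Fin N₃))) => n₃ i).trans K₃
    have k₄ := (Finset.sum_le_sum fun i (_ : i ∈ (Finset.univ : Finset (Fin N₄))) => n₄ i).trans K₄
    linarith
  obtain ⟨k, hk1, hk2, hk3⟩ := DHR_tps hTPS (Sum.elim z₁ (Sum.elim z₂ (Sum.elim z₃ z₄)) : Fin N₁ ⊕ (Fin N₂ ⊕ (Fin N₃ ⊕ Fin N₄)) → ℂ) (16 * (K * l))
    (by positivity) (Sum.inr (Sum.inr (Sum.inl i₃))) (by
      show 0 < ‖z₃ i₃‖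
      linarith) (by
      refine hs.trans ?_
      show 4 * (K * l) ≤ 16 * (K * l) * ‖z₃ i₃‖
      nlinarith)
  refine ⟨k, hk1, by linarith, ?_⟩
  have hk4 : ‖(Sum.elim z₁ (Sum.elim z₂ (Sum.elim z₃ z₄)) : Fin N₁ ⊕ (Fin N₂ ⊕ (Fin N₃ ⊕ Fin N₄)) → ℂ) (Sum.inr (Sum.inr (Sum.inl i₃)))‖ = ((2 - β) ^ 2)⁻¹ := hz3n
  rw [hk4, Fintype.sum_sum_type, Fintype.sum_sum_type, Fintype.sum_sum_type] at hk3
  simp only [Sum.elim_inl, Sum.elim_inr] at hk3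
  rw [Complex.add_re, Complex.add_re, Complex.add_re] at hk3
  have e₁ := f₁ k hk1
  have e₂ := f₂ k hk1
  have e₃ := f₃ k hk1
  have e₄ := f₄ k hk1
  have hpos := DHR_pos h χ₁ χ h1 (2 * k - 1) γ
  rw [Complex.add_re, Complex.add_re, Complex.add_re] at hpos
  have t1 := DHR_two χ₁ 1 h1 0 β₁ hβ1 (2 * k)
  have t2 := DHR_two χ₁ χ h1 γ β₁ hβ1 (2 * k)
  have h1χ : (1 : Y →* ℂˣ) * χ₁ = χ₁ := by
    refine MonoidHom.ext fun y => ?_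
    rw [MonoidHom.mul_apply, MonoidHom.one_apply, one_mul]
  rw [h1χ] at t1
  rw [Nat.cast_mul, Nat.cast_ofNat] at t1 t2
  have hk' : (1 : ℝ) ≤ k := by exact_mod_cast hk1
  have hx : 0 ≤ 1 - β₁ := by linarith
  have hkx : 1 - β₁ ≤ k * (1 - β₁) := by nlinarith
  linarith

end

/-- the final computation for `β ≤ 0` -/
theorem DHR_fin1 (C l D x β : ℝ) (hC : 1 ≤ C) (hl : 1 ≤ l) (hD : 20 * C ≤ D) (hx : Real.exp (-(20 * C * l)) ≤ x) (hβ : β ≤ 0) :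
    1 / D / l * Real.log (1 / D / (x * l)) ≤ 1 - β := by
  have hD0 : 0 < D := by linarith
  have hx0 : 0 < x := lt_of_lt_of_le (Real.exp_pos _) hx
  have h1 : 1 / D / (x * l) ≤ Real.exp (20 * C * l) := by
    have h2 : Real.exp (20 * C * l) = (Real.exp (-(20 * C * l)))⁻¹ := by
      rw [Real.exp_neg, inv_inv]
    rw [h2, div_div, one_div]
    refine inv_anti₀ (Real.exp_pos _) (hx.trans ?_)
    have h3 : 1 ≤ D * l := by nlinarith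
    nlinarith
  have h2 : Real.log (1 / D / (x * l)) ≤ 20 * C * l := by
    rw [← Real.log_exp (20 * C * l)]
    exact Real.log_le_log (by positivity) h1
  have h3 : 1 / D / l * Real.log (1 / D / (x * l)) ≤ 1 / D / l * (20 * C * l) := mul_le_mul_of_nonneg_left h2 (by positivity)
  have h4 : 1 / D / l * (20 * C * l) ≤ 1 := by
    have h5 : 1 / D / l * (20 * C * l) = 20 * C / D := by
      field_simp
    rw [h5, div_le_one hD0]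
    exact hD
  linarith

/-- the final computation for `0 < β` -/
theorem DHR_fin2 (K l D x β : ℝ) (hK : 1 ≤ K) (hl : 1 ≤ l) (hD : 36864 * K ≤ D) (hx : 0 < x) (hβ1 : β ≤ 1) (k : ℕ)
    (hk : (k : ℝ) ≤ 384 * (K * l)) (h : 1 / 8 * (((2 - β) ^ 2)⁻¹) ^ k ≤ 12 * k * x) :
    1 / D / l * Real.log (1 / D / (x * l)) ≤ 1 - β := by
  have hD0 : 0 < D := by linarith
  have hy : 0 ≤ 1 - β := by linarith
  have h1 : Real.exp (-(768 * (K * l) * (1 - β))) ≤ (((2 - β) ^ 2)⁻¹) ^ k := by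
    have h2 : 2 - β ≤ Real.exp (1 - β) := by
      have := Real.add_one_le_exp (1 - β)
      linarith
    have h3 : (((2 - β) ^ 2)⁻¹) ^ k = ((2 - β) ^ (2 * k))⁻¹ := by
      rw [inv_pow, ← pow_mul]
    rw [h3, Real.exp_neg]
    refine inv_anti₀ (pow_pos (by linarith) _) ?_
    calc (2 - β) ^ (2 * k) ≤ (Real.exp (1 - β)) ^ (2 * k) := pow_le_pow_left₀ (by linarith) h2 _
      _ = Real.exp (((2 * k : ℕ) : ℝ) * (1 - β)) := by rw [← Real.exp_nat_mul]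
      _ ≤ Real.exp (768 * (K * l) * (1 - β)) := by
          refine Real.exp_le_exp.2 (mul_le_mul_of_nonneg_right ?_ hy)
          push_cast
          linarith
  have h4 : Real.exp (-(768 * (K * l) * (1 - β))) ≤ D * (x * l) := by
    have h5 : (((2 - β) ^ 2)⁻¹) ^ k ≤ 96 * k * x := by linarith
    have h6 : 96 * (k : ℝ) * x ≤ 96 * (384 * (K * l)) * x := mul_le_mul_of_nonneg_right (mul_le_mul_of_nonneg_left hk (by norm_num)) hx.le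
    have h7 : 96 * (384 * (K * l)) * x = 36864 * K * (x * l) := by ring
    have h8 : 36864 * K * (x * l) ≤ D * (x * l) := mul_le_mul_of_nonneg_right hD (by positivity)
    linarith
  have h5 : 1 / D / (x * l) ≤ Real.exp (768 * (K * l) * (1 - β)) := by
    have h6 : Real.exp (768 * (K * l) * (1 - β)) = (Real.exp (-(768 * (K * l) * (1 - β))))⁻¹ := by
      rw [Real.exp_neg, inv_inv]
    rw [h6, div_div, one_div]
    exact inv_anti₀ (Real.exp_pos _) h4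
  have h6 : Real.log (1 / D / (x * l)) ≤ 768 * (K * l) * (1 - β) := by
    rw [← Real.log_exp (768 * (K * l) * (1 - β))]
    exact Real.log_le_log (by positivity) h5
  have h7 : 1 / D / l * Real.log (1 / D / (x * l)) ≤ 1 / D / l * (768 * (K * l) * (1 - β)) := mul_le_mul_of_nonneg_left h6 (by positivity)
  have h8 : 1 / D / l * (768 * (K * l) * (1 - β)) ≤ 1 - β := by
    have h9 : 1 / D / l * (768 * (K * l) * (1 - β)) = (768 * K / D) * (1 - β) := by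
      field_simp
    rw [h9]
    have h10 : 768 * K / D ≤ 1 := by
      rw [div_le_one hD0]
      linarith
    nlinarith
  linarith

theorem DHR (hEFX : EFX_stmt) (hTPS : TPS_stmt) (hSQ2 : SQ2_stmt) (hSIE : SIE_stmt) : DHR_stmt := by
  classical
  intro q C
  obtain ⟨K, hK1, hK⟩ := hSQ2 C
  obtain ⟨D, hD⟩ : ∃ D : ℝ, D = 20 * max C 1 + 36864 * K := ⟨_, rfl⟩
  have hmax1 : 1 ≤ max C 1 := le_max_right _ _
  have hmaxC : C ≤ max C 1 := le_max_left _ _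
  have hD1 : 1 < D := by linarith
  refine ⟨1 / D, by positivity, by rw [div_lt_one (by linarith)]; exact hD1, ?_⟩
  intro Y _ _ l b E N ρ hq hS hL p₁ p hp h1 him hlam
  obtain ⟨χ₁, i₁⟩ := p₁
  obtain ⟨χ, i⟩ := p
  have hL1 : ZL C l b E χ₁ 0 40 (N χ₁) (ρ χ₁) := hL χ₁
  have hL2 : ZL C l b E χ 0 40 (N χ) (ρ χ) := hL χ
  replace h1 : χ₁ ^ 2 = 1 := h1
  replace him : (ρ χ₁ i₁).im = 0 := him
  replace hlam : (1 - (ρ χ₁ i₁).re) * l < 1 / D := hlam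
  show 1 / D / l * Real.log (1 / D / ((1 - (ρ χ₁ i₁).re) * l)) ≤ 1 - (ρ χ i).re
  obtain ⟨β₁, hβ₁⟩ : ∃ β₁ : ℝ, β₁ = (ρ χ₁ i₁).re := ⟨_, rfl⟩
  obtain ⟨β, hβ⟩ : ∃ β : ℝ, β = (ρ χ i).re := ⟨_, rfl⟩
  obtain ⟨γ, hγ⟩ : ∃ γ : ℝ, γ = (ρ χ i).im := ⟨_, rfl⟩
  have hρ₁ : ρ χ₁ i₁ = (β₁ : ℂ) := by
    refine Complex.ext ?_ ?_
    · rw [hβ₁, Complex.ofReal_re]
    · rw [him, Complex.ofReal_im]
  have hρ : ρ χ i = (β : ℂ) + γ * I := by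
    rw [hβ, hγ, Complex.re_add_im]
  rw [← hβ₁] at hlam
  rw [← hβ₁, ← hβ]
  have hz : E χ₁ (β₁ : ℂ) = 0 := by
    rw [← hρ₁]
    exact hL1.zero i₁
  have hx := hSIE Y C l b E hS χ₁ β₁ hz
  have hx0 : 0 < 1 - β₁ := lt_of_lt_of_le (Real.exp_pos _) hx
  have hβ1 : β ≤ 1 := by
    rw [hβ]
    exact hL2.re1 i
  rcases le_or_gt β 0 with hβ0 | hβ0
  · exact DHR_fin1 C l D (1 - β₁) β hS.C1 hS.l1 (by linarith) hx hβ0
  have hγ20 : |γ| ≤ 20 := by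
    have h2 := (Complex.abs_im_le_norm _).trans (hL2.dist i)
    have h3 : (ρ χ i - (2 + ((0 : ℝ) : ℂ) * I)).im = γ := by
      rw [hγ]
      simp
    rw [h3] at h2
    linarith
  obtain ⟨R, hR, hRε⟩ := DHR_R C l (1 - β₁) hS.C1 hS.l1 hx0
  have h00 : |(0 : ℝ)| ≤ 60 := by norm_num
  have h020 : |(0 : ℝ)| ≤ 20 := by norm_num
  have hγ60 : |γ| ≤ 60 := by linarith
  have hR4 : 4 ≤ R := by linarith
  obtain ⟨N₁, ρ₁, L₁⟩ := hEFX Y C l b E hS 1 0 R h00 hR4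
  obtain ⟨N₂, ρ₂, L₂⟩ := hEFX Y C l b E hS χ₁ 0 R h00 hR4
  obtain ⟨N₃, ρ₃, L₃⟩ := hEFX Y C l b E hS χ γ R hγ60 hR4
  obtain ⟨N₄, ρ₄, L₄⟩ := hEFX Y C l b E hS (χ * χ₁) γ R hγ60 hR4
  have m₁ : (1 : Y →* ℂˣ) = χ₁ → ∃ i, ρ₁ i = (β₁ : ℂ) := by
    intro h2
    rw [h2] at L₁
    obtain ⟨j, hj⟩ := DHR_mem1 hL1 L₁ i₁ (DHR_dist hL1 i₁ 0 R h020 hR)
    exact ⟨j, hj.trans hρ₁⟩
  have m₂ : ∃ i, ρ₂ i = (β₁ : ℂ) := by
    obtain ⟨j, hj⟩ := DHR_mem1 hL1 L₂ i₁ (DHR_dist hL1 i₁ 0 R h020 hR)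
    exact ⟨j, hj.trans hρ₁⟩
  have m₄ : χ * χ₁ = χ₁ → ∃ i, ρ₄ i = (β₁ : ℂ) := by
    intro h2
    rw [h2] at L₄
    obtain ⟨j, hj⟩ := DHR_mem1 hL1 L₄ i₁ (DHR_dist hL1 i₁ γ R hγ20 hR)
    exact ⟨j, hj.trans hρ₁⟩
  have m₃ : ∃ i₃ : Fin N₃, ρ₃ i₃ = (β : ℂ) + γ * I ∧ (χ = χ₁ → ∃ i, i ≠ i₃ ∧ ρ₃ i = (β₁ : ℂ)) := by
    by_cases h2 : χ = χ₁
    · subst h2
      have h3 : i ≠ i₁ := by
        intro h4
        rw [h4] at hp
        exact hp rfl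
      obtain ⟨j, j₁, hj, e1, e2⟩ := DHR_mem2 hL1 L₃ i i₁ h3 (DHR_dist hL1 i γ R hγ20 hR) (DHR_dist hL1 i₁ γ R hγ20 hR)
      exact ⟨j, e1.trans hρ, fun _ => ⟨j₁, hj.symm, e2.trans hρ₁⟩⟩
    · obtain ⟨j, hj⟩ := DHR_mem1 hL2 L₃ i (DHR_dist hL2 i γ R hγ20 hR)
      exact ⟨j, hj.trans hρ, fun h3 => absurd h3 h2⟩
  obtain ⟨i₃, m₃, m₃'⟩ := m₃
  obtain ⟨k, hk1, hk2, hk3⟩ := DHR_four hTPS hS χ₁ χ h1 γ β₁ β (by linarith) hβ0 hβ1 rfl R (by linarith) (mul_nonneg (by linarith) (by linarith [hS.l1])) hRε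
    L₁ L₂ L₃ L₄ m₁ m₂ i₃ m₃ m₃' m₄ (hK Y l b E hS 1 0 R N₁ ρ₁ h00 hR4 L₁) (hK Y l b E hS χ₁ 0 R N₂ ρ₂ h00 hR4 L₂)
    (hK Y l b E hS χ γ R N₃ ρ₃ hγ60 hR4 L₃) (hK Y l b E hS (χ * χ₁) γ R N₄ ρ₄ hγ60 hR4 L₄)
  exact DHR_fin2 K l D (1 - β₁) β hK1 hS.l1 (by linarith) hx0 hβ1 k hk2 hk3

end Pool.Agent.CHE
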